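import Mathlib

set_option autoImplicit false

namespace Pool.Agent.Results.MP_e99302_nt.Proof

/-- The Collatz map. -/
def collatz (n : ℕ) : ℕ := if n % 2 = 0 then n / 2 else 3 * n + 1

/-- `n` has finite height equal to `h`: `h` is the least `k` with `C^k(n) = 1`. -/
def HasHeight (n h : ℕ) : Prop := IsLeast {k : ℕ | collatz^[k] n = 1} h

def T (x : ℤ) : ℤ := if x % 2 = 0 then x / 2 else (3 * x + 1) / 2

def od : ℕ → ℤ → ℕ
  | 0, _ => 0
  | k + 1, x => (if x % 2 = 0 then 0 else 1) + od k (T x)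

lemma T_even (y : ℤ) : T (2 * y) = y := by
  unfold T; rw [if_pos (by omega)]; omega

lemma T_odd (y : ℤ) : T (2 * y + 1) = 3 * y + 2 := by
  unfold T; rw [if_neg (by omega)]; omega

lemma it_even (k : ℕ) (x y : ℤ) (h : x = 2 * y) :
    T^[k + 1] x = T^[k] y ∧ od (k + 1) x = od k y := by
  subst h
  rw [Function.iterate_succ_apply, od, T_even, if_pos (by omega)]; simp

lemma it_odd (k : ℕ) (x y z : ℤ) (h : x = 2 * y + 1) (hz : z = 3 * y + 2) :
    T^[k + 1] x = T^[k] z ∧ od (k + 1) x = od k z + 1 := by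
  subst h hz
  rw [Function.iterate_succ_apply, od, T_odd, if_neg (by omega)]
  exact ⟨rfl, by omega⟩

lemma shift (k : ℕ) : ∀ x t : ℤ, T^[k] (x + 2 ^ k * t) = T^[k] x + 3 ^ od k x * t ∧
    od k (x + 2 ^ k * t) = od k x := by
  induction k with
  | zero => intro x t; simp [od]
  | succ k ih =>
    intro x t
    rcases Int.even_or_odd' x with ⟨y, h | h⟩
    · have a := it_even k x y h
      have b := it_even k (x + 2 ^ (k + 1) * t) (y + 2 ^ k * t) (by rw [h]; ring)
      have c := ih y t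
      rw [a.1, a.2, b.1, b.2]; exact c
    · have a := it_odd k x y _ h rfl
      have b := it_odd k (x + 2 ^ (k + 1) * t) (y + 2 ^ k * t) (3 * y + 2 + 2 ^ k * (3 * t))
        (by rw [h]; ring) (by ring)
      have c := ih (3 * y + 2) (3 * t)
      rw [a.1, a.2, b.1, b.2, c.1, c.2]
      exact ⟨by ring, rfl⟩

lemma od_add (K k : ℕ) : ∀ x : ℤ, od (K + k) x = od K x + od k (T^[K] x) := by
  induction K with
  | zero => intro x; simp [od]
  | succ K ih =>
    intro x
    rw [show K + 1 + k = (K + k) + 1 by ring, od, od, ih, Function.iterate_succ_apply]; ring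

def Q (c : ℕ) (d : ℤ) (k : ℕ) (r : ℤ) : Prop :=
  T^[k] r = T^[k] (3 ^ c * r + d) ∧ od k r = od k (3 ^ c * r + d) + c

def P (c : ℕ) (d : ℤ) : Prop := ∃ k r, Q c d k r

lemma P_cong {c : ℕ} {d : ℤ} (h : P c d) (a : ℕ) (v : ℤ) : ∃ k s, Q c d k (v + 3 ^ a * s) := by
  obtain ⟨k, r, h1, h2⟩ := h
  have hc : IsCoprime ((2 : ℤ) ^ k) (3 ^ a) := by
    apply IsCoprime.pow
    exact ⟨-1, 1, by norm_num⟩
  obtain ⟨p, q, hpq⟩ := hc
  refine ⟨k, q * (r - v), ?_⟩
  have e : v + 3 ^ a * (q * (r - v)) = r + 2 ^ k * (p * (v - r)) := by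
    linear_combination (r - v) * hpq
  rw [e]
  have s1 := shift k r (p * (v - r))
  have s2 := shift k (3 ^ c * r + d) (3 ^ c * (p * (v - r)))
  unfold Q
  rw [show 3 ^ c * (r + 2 ^ k * (p * (v - r))) + d =
    3 ^ c * r + d + 2 ^ k * (3 ^ c * (p * (v - r))) by ring, s1.1, s1.2, s2.1, s2.2, ← h1]
  refine ⟨?_, h2⟩
  rw [h2]; ring

lemma stepA {c : ℕ} {d : ℤ} (h : P c d) : P c (2 * d) := by
  obtain ⟨k, r, h1, h2⟩ := h
  have a := it_even k (2 * r) r rfl
  have b := it_even k (3 ^ c * (2 * r) + 2 * d) (3 ^ c * r + d) (by ring)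
  exact ⟨k + 1, 2 * r, by rw [a.1, b.1, h1], by rw [a.2, b.2, h2]⟩

lemma stepB {c : ℕ} {e : ℤ} (h : P (c + 1) (3 * e + 2)) : P c (2 * e + 1) := by
  obtain ⟨k, r, h1, h2⟩ := h
  have a := it_even k (2 * r) r rfl
  have b := it_odd k (3 ^ c * (2 * r) + (2 * e + 1)) (3 ^ c * r + e)
    (3 ^ (c + 1) * r + (3 * e + 2)) (by ring) (by ring)
  exact ⟨k + 1, 2 * r, by rw [a.1, b.1, h1], by rw [a.2, b.2, h2]; ring⟩

lemma stepC {c : ℕ} {e : ℤ} (h : P c e) : P (c + 1) (2 * e + 3 ^ c) := by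
  obtain ⟨k, s, h1, h2⟩ := P_cong h 1 2
  have a := it_odd k (2 * s + 1) s (2 + 3 ^ 1 * s) rfl (by ring)
  obtain ⟨w, hw⟩ : Odd ((3 : ℤ) ^ c) := Odd.pow (by decide)
  have b := it_even k (3 ^ (c + 1) * (2 * s + 1) + (2 * e + 3 ^ c))
    (3 ^ c * (2 + 3 ^ 1 * s) + e) (by ring)
  exact ⟨k + 1, 2 * s + 1, by rw [a.1, b.1, h1], by rw [a.2, b.2, h2]; ring⟩

lemma stepD {c : ℕ} {w : ℤ} (hw : (3 : ℤ) ^ c = 2 * w + 1) (h : P c (-w)) : P c 0 := by
  obtain ⟨k, s, h1, h2⟩ := P_cong h 1 2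
  have a := it_odd k (2 * s + 1) s (2 + 3 ^ 1 * s) rfl (by ring)
  have b := it_odd k (3 ^ c * (2 * s + 1) + 0) (3 ^ c * s + w)
    (3 ^ c * (2 + 3 ^ 1 * s) + -w) (by rw [hw]; ring) (by rw [hw]; ring)
  exact ⟨k + 1, 2 * s + 1, by rw [a.1, b.1, h1], by rw [a.2, b.2, h2]; ring⟩

lemma P_neg {d : ℤ} (h : P 0 d) : P 0 (-d) := by
  obtain ⟨k, r, h1, h2⟩ := h
  refine ⟨k, r + d, ?_, ?_⟩
  · simpa using h1.symm
  · simpa using h2.symm

lemma P_one (D : ℕ) (H : ∀ e : ℕ, 2 * e + 1 ≤ D → P 0 e) :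
    ∀ d : ℕ, 1 ≤ d → d ≤ D → P 1 d := by
  intro d
  induction d using Nat.strong_induction_on with
  | _ d ih =>
    intro h1 h2
    rcases Nat.even_or_odd' d with ⟨e, h | h⟩
    · have := stepA (ih e (by omega) (by omega) (by omega))
      rw [h]; push_cast; exact this
    · have := stepC (H e (by omega))
      rw [h]; push_cast; simpa using this

lemma P_zero_nat : ∀ d : ℕ, P 0 d := by
  intro d
  induction d using Nat.strong_induction_on with
  | _ d ih =>
    rcases Nat.even_or_odd' d with ⟨e, h | h⟩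
    · rcases Nat.eq_zero_or_pos e with rfl | he
      · exact ⟨0, 0, by simp [h], by simp [od]⟩
      · have := stepA (ih e (by omega))
        rw [h]; push_cast; exact this
    · have := P_one (3 * e + 2) (fun f hf => ih f (by omega)) (3 * e + 2) (by omega) le_rfl
      push_cast at this
      rw [h]; push_cast; exact stepB this

lemma P_all (c : ℕ) : ∀ d : ℤ, P c d := by
  induction c with
  | zero =>
    intro d
    obtain ⟨n, rfl | rfl⟩ := Int.eq_nat_or_neg d
    · exact P_zero_nat n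
    · exact P_neg (P_zero_nat n)
  | succ c ih =>
    have key : ∀ n : ℕ, ∀ d : ℤ, d.natAbs = n → d ≠ 0 → P (c + 1) d := by
      intro n
      induction n using Nat.strong_induction_on with
      | _ n ihn =>
        intro d hd h0
        rcases Int.even_or_odd' d with ⟨e, h | h⟩
        · rw [h]; exact stepA (ihn e.natAbs (by omega) e rfl (by omega))
        · obtain ⟨w, hw⟩ : Odd ((3 : ℤ) ^ c) := Odd.pow (by decide)
          have := stepC (ih (e - w))
          rwa [hw, show 2 * (e - w) + (2 * w + 1) = d by omega] at this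
    intro d
    by_cases h0 : d = 0
    · obtain ⟨w, hw⟩ : Odd ((3 : ℤ) ^ (c + 1)) := Odd.pow (by decide)
      have : (1 : ℤ) < 3 ^ (c + 1) := one_lt_pow₀ (by norm_num) (by omega)
      rw [h0]
      exact stepD hw (key _ _ rfl (by omega))
    · exact key _ _ rfl h0

lemma merge (L : ℕ) : ∃ (K : ℕ) (x : ℤ), ∀ j : ℕ, j < L →
    T^[K] (x + j) = T^[K] x ∧ od K (x + j) = od K x := by
  induction L with
  | zero => exact ⟨0, 0, fun j hj => absurd hj (by omega)⟩
  | succ L ih =>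
    obtain ⟨K, x, H⟩ := ih
    have main : ∃ (k : ℕ) (s : ℤ), T^[k] (T^[K] (x + L + 2 ^ K * s)) = T^[k] (T^[K] (x + 2 ^ K * s)) ∧
        od K (x + L) + od k (T^[K] (x + L + 2 ^ K * s)) =
          od K x + od k (T^[K] (x + 2 ^ K * s)) := by
      rcases le_total (od K x) (od K (x + L)) with hab | hab
      · obtain ⟨c, hc⟩ := Nat.exists_eq_add_of_le hab
        obtain ⟨k, s, h1, h2⟩ := P_cong (P_all c (T^[K] (x + L) - 3 ^ c * T^[K] x)) (od K x) (T^[K] x)
        refine ⟨k, s, ?_⟩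
        rw [(shift K x s).1, (shift K (x + L) s).1, h1, h2, hc]
        rw [show T^[K] (x + L) + 3 ^ (od K x + c) * s = 3 ^ c * (T^[K] x + 3 ^ od K x * s) +
          (T^[K] (x + L) - 3 ^ c * T^[K] x) by ring]
        exact ⟨rfl, by ring⟩
      · obtain ⟨c, hc⟩ := Nat.exists_eq_add_of_le hab
        obtain ⟨k, s, h1, h2⟩ := P_cong (P_all c (T^[K] x - 3 ^ c * T^[K] (x + L)))
          (od K (x + L)) (T^[K] (x + L))
        refine ⟨k, s, ?_⟩
        rw [(shift K x s).1, (shift K (x + L) s).1, h1, h2, hc]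
        rw [show T^[K] x + 3 ^ (od K (x + L) + c) * s = 3 ^ c * (T^[K] (x + L) + 3 ^ od K (x + L) * s) +
          (T^[K] x - 3 ^ c * T^[K] (x + L)) by ring]
        exact ⟨rfl, by ring⟩
    obtain ⟨k, s, h1, h2⟩ := main
    refine ⟨K + k, x + 2 ^ K * s, fun j hj => ?_⟩
    rw [show x + 2 ^ K * s + j = x + j + 2 ^ K * s by ring, od_add, od_add, add_comm K k,
      Function.iterate_add_apply, Function.iterate_add_apply, (shift K x s).2, (shift K (x + j) s).2]
    rcases Nat.lt_succ_iff_lt_or_eq.1 hj with h | rfl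
    · rw [(shift K x s).1, (shift K (x + j) s).1, (H j h).1, (H j h).2]
      exact ⟨rfl, rfl⟩
    · exact ⟨h1, h2⟩

lemma nd_it (k : ℕ) : ∀ x : ℤ, ¬ 3 ∣ x → ¬ 3 ∣ T^[k] x := by
  induction k with
  | zero => intro x h; simpa using h
  | succ k ih =>
    intro x h
    rw [Function.iterate_succ_apply]
    apply ih
    unfold T; split_ifs <;> omega

lemma nd_od (k : ℕ) : ∀ x : ℤ, od k x = 0 ∨ ¬ 3 ∣ T^[k] x := by
  induction k with
  | zero => intro x; simp [od]
  | succ k ih =>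
    intro x
    rcases Int.even_or_odd' x with ⟨y, h | h⟩
    · have a := it_even k x y h
      rw [a.1, a.2]; exact ih y
    · have a := it_odd k x y _ h rfl
      rw [a.1]; exact Or.inr (nd_it k _ (by omega))

lemma four_pow (a : ℕ) : ∃ u : ℤ, ¬ 3 ∣ u ∧ (2 : ℤ) ^ (2 * 3 ^ a) = 1 + 3 ^ (a + 1) * u := by
  induction a with
  | zero => exact ⟨1, by norm_num, by norm_num⟩
  | succ a ih =>
    obtain ⟨u, hu, h⟩ := ih
    refine ⟨u + 3 * (3 ^ a * u ^ 2 + 3 ^ (2 * a) * u ^ 3), by omega, ?_⟩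
    rw [show 2 * 3 ^ (a + 1) = (2 * 3 ^ a) * 3 by ring, pow_mul, h]; ring

lemma prim (v : ℤ) (hv : ¬ 3 ∣ v) (N a : ℕ) : ∃ m, N ≤ m ∧ ∃ t : ℤ, 2 ^ m = v + 3 ^ (a + 1) * t := by
  induction a with
  | zero =>
    have h : ∃ u : ℤ, (2 : ℤ) ^ (2 * N) = 1 + 3 * u := by
      induction N with
      | zero => exact ⟨0, by norm_num⟩
      | succ N ih =>
        obtain ⟨u, hu⟩ := ih
        exact ⟨4 * u + 1, by rw [show 2 * (N + 1) = 2 * N + 2 by ring, pow_add, hu]; ring⟩
    obtain ⟨u, hu⟩ := h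
    by_cases h1 : v % 3 = 1
    · exact ⟨2 * N, by omega, u - v / 3, by rw [hu]; omega⟩
    · exact ⟨2 * N + 1, by omega, 2 * u - v / 3, by rw [pow_succ, hu]; omega⟩
  | succ a ih =>
    obtain ⟨m, hm, t, ht⟩ := ih
    obtain ⟨u, hu, h⟩ := four_pow a
    have huv : ¬ 3 ∣ u * v := fun hh => by
      rcases Int.prime_three.dvd_or_dvd hh with h' | h'
      · exact hu h'
      · exact hv h'
    have : 3 ∣ t ∨ 3 ∣ t + u * v ∨ 3 ∣ t + 2 * (u * v) := by
      have a1 : t % 3 = 0 ∨ t % 3 = 1 ∨ t % 3 = 2 := by omega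
      have a2 : (u * v) % 3 = 1 ∨ (u * v) % 3 = 2 := by omega
      rcases a1 with a1 | a1 | a1 <;> rcases a2 with a2 | a2 <;> omega
    rcases this with ⟨z, hz⟩ | ⟨z, hz⟩ | ⟨z, hz⟩
    · exact ⟨m, hm, z, by rw [ht, hz]; ring⟩
    · refine ⟨m + 2 * 3 ^ a, by omega, z + 3 ^ a * t * u, ?_⟩
      rw [pow_add, ht, h]
      linear_combination (3 : ℤ) ^ (a + 1) * hz
    · refine ⟨m + 2 * 3 ^ a + 2 * 3 ^ a, by omega,
        z + 3 ^ a * (2 * t * u + u ^ 2 * v + 3 ^ (a + 1) * t * u ^ 2), ?_⟩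
      rw [pow_add, pow_add, ht, h]
      linear_combination (3 : ℤ) ^ (a + 1) * hz

lemma coll_T (k : ℕ) : ∀ n : ℕ, ((collatz^[k + od k n] n : ℕ) : ℤ) = T^[k] n := by
  induction k with
  | zero => intro n; simp [od]
  | succ k ih =>
    intro n
    rcases Nat.even_or_odd' n with ⟨y, h | h⟩
    · have a := it_even k n y (by rw [h]; push_cast; ring)
      have c : collatz n = y := by unfold collatz; rw [if_pos (by omega)]; omega
      rw [a.1, a.2, show k + 1 + od k y = (k + od k y) + 1 by ring, Function.iterate_succ_apply, c,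
        ih]
    · have a := it_odd k n y ((3 * y + 2 : ℕ) : ℤ) (by rw [h]; push_cast; ring) (by push_cast; ring)
      have c : collatz (collatz n) = 3 * y + 2 := by
        have : collatz n = 6 * y + 4 := by unfold collatz; rw [if_neg (by omega)]; omega
        rw [this]; unfold collatz; rw [if_pos (by omega)]; omega
      rw [a.1, a.2, show k + 1 + (od k ((3 * y + 2 : ℕ) : ℤ) + 1) =
        (k + od k ((3 * y + 2 : ℕ) : ℤ)) + 1 + 1 by ring, Function.iterate_succ_apply,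
        Function.iterate_succ_apply, c, ih]

lemma coll_ge (k : ℕ) : ∀ n : ℕ, n ≤ 2 ^ k * collatz^[k] n := by
  induction k with
  | zero => intro n; simp
  | succ k ih =>
    intro n
    rw [Function.iterate_succ_apply, pow_succ, mul_comm (2 ^ k) 2, mul_assoc]
    have := ih (collatz n)
    have : n ≤ 2 * collatz n := by unfold collatz; split_ifs <;> omega
    omega

lemma coll_pow (i j : ℕ) : collatz^[i] (2 ^ (i + j)) = 2 ^ j := by
  induction i with
  | zero => simp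
  | succ i ih =>
    rw [Function.iterate_succ_apply]
    have : collatz (2 ^ (i + 1 + j)) = 2 ^ (i + j) := by
      rw [show i + 1 + j = (i + j) + 1 by ring, pow_succ]
      unfold collatz; rw [if_pos (by omega)]; omega
    rw [this, ih]

theorem result : ∀ L : ℕ, 1 ≤ L → ∃ n : ℕ, 1 ≤ n ∧ ∃ h : ℕ, ∀ j < L, HasHeight (n + j) h := by
  intro L _
  obtain ⟨K, x, H⟩ := merge L
  set a := od K x with ha
  set v := T^[K] x with hv
  obtain ⟨G, hG⟩ : ∃ G : ℕ, G = 2 ^ (K + a) := ⟨_, rfl⟩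
  obtain ⟨B, hB⟩ : ∃ B : ℕ, B = G + 1 + x.natAbs := ⟨_, rfl⟩
  obtain ⟨m, hm, t, ht⟩ : ∃ m, 3 ^ a * B + v.natAbs ≤ m ∧ ∃ t : ℤ, 2 ^ m = v + 3 ^ a * t := by
    rcases nd_od K x with h | h
    · exact ⟨_, le_rfl, 2 ^ (3 ^ a * B + v.natAbs) - v, by rw [ha, h]; simp⟩
    · obtain ⟨m, hm, t, ht⟩ := prim v h (3 ^ a * B + v.natAbs) a
      exact ⟨m, hm, 3 * t, by rw [ht]; ring⟩
  have h1 : (m : ℤ) < 2 ^ m := by exact_mod_cast Nat.lt_two_pow_self
  have h2 : (3 : ℤ) ^ a * B + |v| ≤ m := by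
    rw [← Int.natCast_natAbs]; exact_mod_cast hm
  have h3 : (B : ℤ) < t := by
    have p3 : (0 : ℤ) < 3 ^ a := by positivity
    have := le_abs_self v
    exact lt_of_mul_lt_mul_left (a := (3 : ℤ) ^ a) (by linarith) p3.le
  have h4 : t ≤ 2 ^ K * t := le_mul_of_one_le_left (by omega) (one_le_pow₀ (by norm_num))
  have h5 : (G : ℤ) < x + 2 ^ K * t := by omega
  obtain ⟨n, hn⟩ : ∃ n : ℕ, (n : ℤ) = x + 2 ^ K * t := ⟨(x + 2 ^ K * t).toNat, by omega⟩
  have h6 : G < n := by omega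
  refine ⟨n, by omega, m + (K + a), fun j hj => ?_⟩
  have e : ((n + j : ℕ) : ℤ) = x + j + 2 ^ K * t := by push_cast; rw [hn]; ring
  have c := coll_T K (n + j)
  rw [e, (shift K _ t).1, (shift K _ t).2, (H j hj).1, (H j hj).2, ← ht] at c
  have c' : collatz^[K + a] (n + j) = 2 ^ m := by exact_mod_cast c
  constructor
  · show collatz^[m + (K + a)] (n + j) = 1
    rw [Function.iterate_add_apply, c']
    simpa using coll_pow m 0
  · intro k hk
    have hk' : collatz^[k] (n + j) = 1 := hk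
    by_contra hlt
    rcases le_total k (K + a) with h | h
    · have := coll_ge k (n + j)
      rw [hk'] at this
      have : 2 ^ k ≤ 2 ^ (K + a) := Nat.pow_le_pow_right (by norm_num) h
      omega
    · obtain ⟨i, rfl⟩ := Nat.exists_eq_add_of_le h
      obtain ⟨l, hl⟩ : ∃ l, m = i + (l + 1) := ⟨m - i - 1, by omega⟩
      rw [add_comm (K + a) i, Function.iterate_add_apply, c', hl, coll_pow, pow_succ] at hk'
      omega

end Pool.Agent.Results.MP_e99302_nt.Proof
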